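import Mathlib

set_option autoImplicit false

/-!
# Symmetric functions, symmetric real algebraic sets and multiplicities of Specht modules
-/

open MvPolynomial CategoryTheory

namespace Pool.Agent.Work.MP_356e41_ag

universe u

section Defs

/-- The map `R[X_1,…,X_{n+m}] → R[X_1,…,X_n]` which sets `X_{n+1},…,X_{n+m}` to `0`. -/
noncomputable def setZero (R : Type u) [Field R] (n m : ℕ) :
    MvPolynomial (Fin (n + m)) R →ₐ[R] MvPolynomial (Fin n) R :=
  aeval (Fin.addCases (motive := fun _ => MvPolynomial (Fin n) R) (fun i => X i) (fun _ => 0))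

/-- `f = (f_n)` is a sequence of symmetric polynomials `f_n ∈ R[X_1,…,X_n]`, of bounded degree,
with `f_{n+m}(X_1,…,X_n,0,…,0) = f_n`. -/
def IsSymmFun (R : Type u) [Field R] (f : ∀ n : ℕ, MvPolynomial (Fin n) R) : Prop :=
  (∀ n, (f n).IsSymmetric) ∧ (∀ n m, setZero R n m (f (n + m)) = f n) ∧
    ∃ d : ℕ, ∀ n, (f n).totalDegree ≤ d

theorem IsSymmFun.mul {R : Type u} [Field R] {f g : ∀ n : ℕ, MvPolynomial (Fin n) R}
    (hf : IsSymmFun R f) (hg : IsSymmFun R g) : IsSymmFun R (f * g) := by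
  obtain ⟨hf1, hf2, d, hd⟩ := hf
  obtain ⟨hg1, hg2, e, he⟩ := hg
  refine ⟨fun n => (hf1 n).mul (hg1 n), fun n m => ?_, d + e, fun n => ?_⟩
  · simp [hf2, hg2]
  · exact (totalDegree_mul _ _).trans (add_le_add (hd n) (he n))

theorem IsSymmFun.add {R : Type u} [Field R] {f g : ∀ n : ℕ, MvPolynomial (Fin n) R}
    (hf : IsSymmFun R f) (hg : IsSymmFun R g) : IsSymmFun R (f + g) := by
  obtain ⟨hf1, hf2, d, hd⟩ := hf
  obtain ⟨hg1, hg2, e, he⟩ := hg
  refine ⟨fun n => (hf1 n).add (hg1 n), fun n m => ?_, max d e, fun n => ?_⟩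
  · simp [hf2, hg2]
  · exact (totalDegree_add _ _).trans (max_le_max (hd n) (he n))

theorem IsSymmFun.const {R : Type u} [Field R] (r : R) :
    IsSymmFun R (algebraMap R (∀ n : ℕ, MvPolynomial (Fin n) R) r) := by
  refine ⟨fun n => IsSymmetric.C r, fun n m => ?_, 0, fun n => ?_⟩
  · simp [Pi.algebraMap_apply, MvPolynomial.algebraMap_eq, setZero]
  · simp [Pi.algebraMap_apply, MvPolynomial.algebraMap_eq]

/-- The sequences `IsSymmFun` form a ring. -/
def LamSub (R : Type u) [Field R] : Subalgebra R (∀ n : ℕ, MvPolynomial (Fin n) R) where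
  carrier := {f | IsSymmFun R f}
  mul_mem' := IsSymmFun.mul
  add_mem' := IsSymmFun.add
  algebraMap_mem' := IsSymmFun.const

/-- The ring `Λ` of symmetric functions over `R`, the graded inverse limit of the rings
`Λ_n = R[X_1,…,X_n]^{S_n}`. -/
def Lam (R : Type u) [Field R] : Type u := LamSub R

noncomputable instance instLam (R : Type u) [Field R] : CommRing (Lam R) :=
  Subalgebra.toCommRing (LamSub R)

/-- The map `φ_n : Λ → Λ_n ⊆ R[X_1,…,X_n]`. -/
def phi {R : Type u} [Field R] (n : ℕ) (f : Lam R) : MvPolynomial (Fin n) R := f.1 n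

/-- `V_n(I) ⊆ R^n`, the zero set of the polynomials `φ_n(g)`, `g ∈ I`. -/
def V {R : Type u} [Field R] (I : Ideal (Lam R)) (n : ℕ) : Set (Fin n → R) :=
  {x | ∀ g ∈ I, eval x (phi n g) = 0}

theorem perm_mem {R : Type u} [Field R] (I : Ideal (Lam R)) {n : ℕ} (g : Equiv.Perm (Fin n))
    (x : V I n) : (fun i => (x : Fin n → R) (g i)) ∈ V I n := by
  intro f hf
  have h1 := x.2 f hf
  have h2 : rename g (phi n f) = phi n f := f.2.1 n g
  rw [← h2, eval_rename] at h1
  exact h1

/-- The permutation `x ↦ (x_{g(1)},…,x_{g(n)})` of the coordinates, as a self-map of `V_n(I)`. -/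
def permV {R : Type u} [Field R] (I : Ideal (Lam R)) {n : ℕ} (g : Equiv.Perm (Fin n))
    (x : V I n) : V I n :=
  ⟨fun i => (x : Fin n → R) (g i), perm_mem I g x⟩

theorem continuous_permV {R : Type u} [Field R] [TopologicalSpace R] (I : Ideal (Lam R)) {n : ℕ}
    (g : Equiv.Perm (Fin n)) : Continuous (permV I g) := by
  refine Continuous.subtype_mk ?_ _
  exact continuous_pi fun i => (continuous_apply (g i)).comp continuous_subtype_val

/-! ### Young tableaux and Specht modules -/

/-- The Young symmetrizer `∑_{q ∈ C_t} ∑_{p ∈ R_t} sgn(q) q p ∈ ℚ[S_n]` of a tableau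
`t : {1,…,n} ≃ {cells of μ}`; here `R_t` (resp. `C_t`) is the group of all permutations which
preserve each row (resp. column) of `t`. -/
noncomputable def youngSym {n : ℕ} {μ : YoungDiagram} (t : Fin n ≃ μ.cells) :
    MonoidAlgebra ℚ (Equiv.Perm (Fin n)) :=
  ∑ q : {q : Equiv.Perm (Fin n) // ∀ i, (t (q i)).1.2 = (t i).1.2},
    ∑ p : {p : Equiv.Perm (Fin n) // ∀ i, (t (p i)).1.1 = (t i).1.1},
      MonoidAlgebra.single (q.1 * p.1) ((Equiv.Perm.sign q.1 : ℤ) : ℚ)

/-- The Specht module `𝕊^μ = ℚ[S_n] c_t`, the left ideal generated by the Young symmetrizer. -/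
noncomputable def specht {n : ℕ} {μ : YoungDiagram} (t : Fin n ≃ μ.cells) :
    Submodule (MonoidAlgebra ℚ (Equiv.Perm (Fin n))) (MonoidAlgebra ℚ (Equiv.Perm (Fin n))) :=
  Submodule.span _ {youngSym t}

/-- The multiplicity of the Specht module `𝕊^μ` in a representation `M` of `S_n` over `ℚ`:
the dimension of `Hom_{ℚ[S_n]}(𝕊^μ, M)`. -/
noncomputable def mult {n : ℕ} {μ : YoungDiagram} (t : Fin n ≃ μ.cells) {M : Type u}
    [AddCommGroup M] [Module ℚ M] (ρ : Representation ℚ (Equiv.Perm (Fin n)) M) : ℕ :=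
  Module.finrank ℚ (specht t →ₗ[MonoidAlgebra ℚ (Equiv.Perm (Fin n))] ρ.asModule)

/-- `μ` is of the form `{λ}_n = (n - |λ|, λ_1, λ_2, …)`: deleting the first row of `μ` gives
`λ`. -/
def IsPadded (lam μ : YoungDiagram) : Prop :=
  ∀ i j : ℕ, (i + 1, j) ∈ μ ↔ (i, j) ∈ lam

/-! ### Degree zero cohomology over an arbitrary real closed field -/

/-- Semi-algebraic subsets of `R^n`: the Boolean algebra of subsets generated by the sets
`{x | p(x) > 0}` with `p` a polynomial. -/
inductive SemiAlg {R : Type u} [Field R] [LinearOrder R] {n : ℕ} : Set (Fin n → R) → Prop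
  | basic (p : MvPolynomial (Fin n) R) : SemiAlg {x | 0 < eval x p}
  | compl {s : Set (Fin n → R)} : SemiAlg s → SemiAlg sᶜ
  | inter {s t : Set (Fin n → R)} : SemiAlg s → SemiAlg t → SemiAlg (s ∩ t)

theorem SemiAlg.union {R : Type u} [Field R] [LinearOrder R] {n : ℕ} {s t : Set (Fin n → R)}
    (hs : SemiAlg s) (ht : SemiAlg t) : SemiAlg (s ∪ t) := by
  have := (hs.compl.inter ht.compl).compl
  rwa [Set.compl_inter, compl_compl, compl_compl] at this

theorem SemiAlg.empty {R : Type u} [Field R] [LinearOrder R] {n : ℕ} :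
    SemiAlg (∅ : Set (Fin n → R)) := by
  have := SemiAlg.basic (R := R) (n := n) 0
  simpa using this

theorem SemiAlg.univ {R : Type u} [Field R] [LinearOrder R] {n : ℕ} :
    SemiAlg (Set.univ : Set (Fin n → R)) := by
  simpa using (SemiAlg.empty (R := R) (n := n)).compl

theorem SemiAlg.biUnion {R : Type u} [Field R] [LinearOrder R] {n : ℕ} {ι : Type*}
    (A : Finset ι) (s : ι → Set (Fin n → R)) (h : ∀ i ∈ A, SemiAlg (s i)) :
    SemiAlg (⋃ i ∈ A, s i) := by
  classical
  induction A using Finset.induction_on with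
  | empty => simpa using SemiAlg.empty
  | insert a A ha ih =>
    rw [Finset.set_biUnion_insert]
    exact (h a (Finset.mem_insert_self _ _)).union
      (ih fun i hi => h i (Finset.mem_insert_of_mem hi))

theorem SemiAlg.preimage {R : Type u} [Field R] [LinearOrder R] {n : ℕ} {s : Set (Fin n → R)}
    (hs : SemiAlg s) (g : Equiv.Perm (Fin n)) : SemiAlg {x | (fun i => x (g i)) ∈ s} := by
  induction hs with
  | basic p =>
    have : {x : Fin n → R | (fun i => x (g i)) ∈ {x | 0 < eval x p}} =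
        {x | 0 < eval x (rename g p)} := by
      ext x
      simp only [Set.mem_ofPred_eq, eval_rename]
      rfl
    rw [this]
    exact SemiAlg.basic _
  | compl _ ih => exact ih.compl
  | inter _ _ ih1 ih2 => exact ih1.inter ih2

/-- `f : S → ℚ` takes finitely many values, is locally constant (for the order topology), and its
level sets are traces on `S` of semi-algebraic sets. -/
def IsH0 {R : Type u} [Field R] [LinearOrder R] [TopologicalSpace R] {n : ℕ}
    (S : Set (Fin n → R)) (f : S → ℚ) : Prop :=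
  (Set.range f).Finite ∧ IsLocallyConstant f ∧
    ∀ q : ℚ, ∃ T : Set (Fin n → R), SemiAlg T ∧ ∀ x : S, f x = q ↔ (x : Fin n → R) ∈ T

theorem IsH0.zero {R : Type u} [Field R] [LinearOrder R] [TopologicalSpace R] {n : ℕ}
    (S : Set (Fin n → R)) : IsH0 S 0 := by
  refine ⟨?_, IsLocallyConstant.const 0, fun q => ?_⟩
  · exact (Set.finite_singleton (0 : ℚ)).subset (by rintro _ ⟨x, rfl⟩; rfl)
  · by_cases hq : q = 0
    · exact ⟨Set.univ, SemiAlg.univ, fun x => by simp [hq]⟩
    · exact ⟨∅, SemiAlg.empty, fun x => by simp [Ne.symm hq]⟩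

theorem IsH0.add {R : Type u} [Field R] [LinearOrder R] [TopologicalSpace R] {n : ℕ}
    {S : Set (Fin n → R)} {f g : S → ℚ} (hf : IsH0 S f) (hg : IsH0 S g) : IsH0 S (f + g) := by
  obtain ⟨hf1, hf2, hf3⟩ := hf
  obtain ⟨hg1, hg2, hg3⟩ := hg
  refine ⟨?_, hf2.add hg2, fun q => ?_⟩
  · refine ((hf1.add hg1)).subset ?_
    rintro _ ⟨x, rfl⟩
    exact Set.add_mem_add ⟨x, rfl⟩ ⟨x, rfl⟩
  · choose A hA hA' using hf3
    choose B hB hB' using hg3
    refine ⟨⋃ a ∈ hf1.toFinset, A a ∩ B (q - a),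
      SemiAlg.biUnion _ _ (fun a _ => (hA a).inter (hB (q - a))), fun x => ?_⟩
    simp only [Set.mem_iUnion, Set.mem_inter_iff, Set.Finite.mem_toFinset, Pi.add_apply]
    constructor
    · intro h
      exact ⟨f x, ⟨x, rfl⟩, (hA' _ x).1 rfl, (hB' _ x).1 (by rw [← h]; ring)⟩
    · rintro ⟨a, _, h1, h2⟩
      rw [(hA' a x).2 h1, (hB' (q - a) x).2 h2]
      ring

theorem IsH0.smul {R : Type u} [Field R] [LinearOrder R] [TopologicalSpace R] {n : ℕ}
    {S : Set (Fin n → R)} (c : ℚ) {f : S → ℚ} (hf : IsH0 S f) : IsH0 S (c • f) := by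
  obtain ⟨hf1, hf2, hf3⟩ := hf
  by_cases hc : c = 0
  · subst hc
    rw [zero_smul]
    exact IsH0.zero S
  · refine ⟨?_, hf2.comp (fun z => c • z), fun q => ?_⟩
    · refine (hf1.image (fun z => c • z)).subset ?_
      rintro _ ⟨x, rfl⟩
      exact ⟨f x, ⟨x, rfl⟩, rfl⟩
    · obtain ⟨T, hT, hT'⟩ := hf3 (c⁻¹ * q)
      refine ⟨T, hT, fun x => ?_⟩
      rw [← hT' x, Pi.smul_apply, smul_eq_mul, eq_inv_mul_iff_mul_eq₀ hc]

/-- The functions `IsH0` form a vector space. -/
def H0Sub {R : Type u} [Field R] [LinearOrder R] [TopologicalSpace R] {n : ℕ}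
    (S : Set (Fin n → R)) : Submodule ℚ (S → ℚ) where
  carrier := {f | IsH0 S f}
  zero_mem' := IsH0.zero S
  add_mem' := IsH0.add
  smul_mem' := IsH0.smul

/-- The degree `0` cohomology `H^0(S; ℚ)` of a semi-algebraic set `S ⊆ R^n`, `R` a real closed
field: the `ℚ`-vector space of all functions `f : S → ℚ` which take finitely many values, are
locally constant (for the order topology), and whose level sets are semi-algebraic (that is, traces
on `S` of semi-algebraic sets).  These are the functions which are constant on each of the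
finitely many semi-algebraically connected components of `S`. -/
def H0 {R : Type u} [Field R] [LinearOrder R] [TopologicalSpace R] {n : ℕ}
    (S : Set (Fin n → R)) : Type u := H0Sub S

instance instH0 {R : Type u} [Field R] [LinearOrder R] [TopologicalSpace R] {n : ℕ}
    (S : Set (Fin n → R)) : AddCommGroup (H0 S) := Submodule.addCommGroup (H0Sub S)

instance instH0' {R : Type u} [Field R] [LinearOrder R] [TopologicalSpace R] {n : ℕ}
    (S : Set (Fin n → R)) : Module ℚ (H0 S) := Submodule.module (H0Sub S)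

theorem IsH0.perm {R : Type u} [Field R] [LinearOrder R] [TopologicalSpace R]
    (I : Ideal (Lam R)) {n : ℕ} (g : Equiv.Perm (Fin n)) (f : H0 (V I n)) :
    IsH0 (V I n) (fun x => f.1 (permV I g x)) := by
  obtain ⟨hf1, hf2, hf3⟩ := f.2
  refine ⟨hf1.subset ?_, hf2.comp_continuous (continuous_permV I g), fun q => ?_⟩
  · rintro _ ⟨x, rfl⟩
    exact ⟨permV I g x, rfl⟩
  · obtain ⟨T, hT, hT'⟩ := hf3 q
    exact ⟨_, hT.preimage g, fun x => hT' (permV I g x)⟩

/-- The map `f ↦ (x ↦ f(x_{g(1)},…,x_{g(n)}))` on `H^0(V_n(I); ℚ)`. -/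
def act0 {R : Type u} [Field R] [LinearOrder R] [TopologicalSpace R] (I : Ideal (Lam R)) {n : ℕ}
    (g : Equiv.Perm (Fin n)) : H0 (V I n) →ₗ[ℚ] H0 (V I n) where
  toFun f := ⟨fun x => f.1 (permV I g x), IsH0.perm I g f⟩
  map_add' _ _ := rfl
  map_smul' _ _ := rfl

/-- The representation of `S_n` on `H^0(V_n(I); ℚ)` induced by the permutation of the coordinates,
for an arbitrary real closed field `R`. -/
def rep0 {R : Type u} [Field R] [LinearOrder R] [TopologicalSpace R] (I : Ideal (Lam R)) (n : ℕ) :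
    Representation ℚ (Equiv.Perm (Fin n)) (H0 (V I n)) where
  toFun g := act0 I g
  map_one' := rfl
  map_mul' _ _ := rfl

/-! ### Singular cohomology of real algebraic sets -/

/-- Singular homology `H_p(X; ℚ)` (Mathlib's functor). -/
noncomputable def Hlow (p : ℕ) (X : TopCat.{0}) : ModuleCat.{0} ℚ :=
  ((AlgebraicTopology.singularHomologyFunctor (ModuleCat.{0} ℚ) p).obj (ModuleCat.of ℚ ℚ)).obj X

/-- The linear map induced by a continuous map on singular homology. -/
noncomputable def HlowMap (p : ℕ) {X Y : TopCat.{0}} (f : X ⟶ Y) : Hlow p X →ₗ[ℚ] Hlow p Y :=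
  (((AlgebraicTopology.singularHomologyFunctor (ModuleCat.{0} ℚ) p).obj
    (ModuleCat.of ℚ ℚ)).map f).hom

theorem HlowMap_id (p : ℕ) (X : TopCat.{0}) : HlowMap p (𝟙 X) = LinearMap.id := by
  have h := ((AlgebraicTopology.singularHomologyFunctor (ModuleCat.{0} ℚ) p).obj
    (ModuleCat.of ℚ ℚ)).map_id X
  exact congrArg (fun F => ModuleCat.Hom.hom F) h

theorem HlowMap_comp (p : ℕ) {X Y Z : TopCat.{0}} (f : X ⟶ Y) (g : Y ⟶ Z) :
    HlowMap p (f ≫ g) = (HlowMap p g).comp (HlowMap p f) := by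
  have h := ((AlgebraicTopology.singularHomologyFunctor (ModuleCat.{0} ℚ) p).obj
    (ModuleCat.of ℚ ℚ)).map_comp f g
  exact congrArg (fun F => ModuleCat.Hom.hom F) h

/-- Singular cohomology `H^p(X; ℚ) = Hom_ℚ(H_p(X; ℚ), ℚ)`. -/
def Hup (p : ℕ) (X : TopCat.{0}) : Type := Module.Dual ℚ (Hlow p X)

noncomputable instance instHup (p : ℕ) (X : TopCat.{0}) : AddCommGroup (Hup p X) :=
  LinearMap.addCommGroup

noncomputable instance instHup' (p : ℕ) (X : TopCat.{0}) : Module ℚ (Hup p X) :=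
  LinearMap.module

/-- Pull-back on singular cohomology. -/
noncomputable def HupMap (p : ℕ) {X Y : TopCat.{0}} (f : X ⟶ Y) : Hup p Y →ₗ[ℚ] Hup p X :=
  (HlowMap p f).dualMap

/-- `V_n(I) ⊆ ℝ^n` as a topological space. -/
noncomputable def VTop (I : Ideal (Lam ℝ)) (n : ℕ) : TopCat.{0} := TopCat.of (V I n)

/-- The self-map `x ↦ (x_{g(1)},…,x_{g(n)})` of `V_n(I)` as a continuous map. -/
noncomputable def permC (I : Ideal (Lam ℝ)) {n : ℕ} (g : Equiv.Perm (Fin n)) :
    VTop I n ⟶ VTop I n :=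
  TopCat.ofHom ⟨permV I g, continuous_permV I g⟩

theorem HupMap_one (I : Ideal (Lam ℝ)) {n : ℕ} (p : ℕ) :
    HupMap p (permC I (1 : Equiv.Perm (Fin n))) = LinearMap.id := by
  have : permC I (1 : Equiv.Perm (Fin n)) = 𝟙 _ := rfl
  rw [this, HupMap, HlowMap_id]
  rfl

theorem HupMap_mul (I : Ideal (Lam ℝ)) {n : ℕ} (p : ℕ) (g h : Equiv.Perm (Fin n)) :
    HupMap p (permC I (g * h)) = (HupMap p (permC I g)).comp (HupMap p (permC I h)) := by
  have : permC I (g * h) = permC I g ≫ permC I h := rfl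
  rw [this, HupMap, HlowMap_comp]
  rfl

/-- The representation of `S_n` on the singular cohomology `H^p(V_n(I); ℚ)`, for `R = ℝ`:
a permutation `g` acts by pull-back along `x ↦ (x_{g(1)},…,x_{g(n)})`. -/
noncomputable def repSing (I : Ideal (Lam ℝ)) (n p : ℕ) :
    Representation ℚ (Equiv.Perm (Fin n)) (Hup p (VTop I n)) where
  toFun g := HupMap p (permC I g)
  map_one' := HupMap_one I p
  map_mul' := HupMap_mul I p

/-- The multiplicity `m_{0,μ}(V_n(I))` of `𝕊^μ` in `H^0(V_n(I); ℚ)`, for an arbitrary real closed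
field `R`; here `t` is any tableau of shape `μ`. -/
noncomputable def multH0 {R : Type u} [Field R] [LinearOrder R] [TopologicalSpace R]
    (I : Ideal (Lam R)) {n : ℕ} {μ : YoungDiagram} (t : Fin n ≃ μ.cells) : ℕ :=
  mult t (rep0 I n)

/-- The multiplicity `m_{p,μ}(V_n(I))` of `𝕊^μ` in the singular cohomology `H^p(V_n(I); ℚ)`, for
`R = ℝ`; here `t` is any tableau of shape `μ`. -/
noncomputable def multSing (p : ℕ) (I : Ideal (Lam ℝ)) {n : ℕ} {μ : YoungDiagram}
    (t : Fin n ≃ μ.cells) : ℕ :=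
  mult t (repSing I n p)

end Defs

end Pool.Agent.Work.MP_356e41_ag
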