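import Mathlib

set_option autoImplicit false

namespace Pool.Agent.Work.MP_356e41_ag

universe u

/-- two tuples with the same fibre sizes differ by a permutation -/
theorem exists_perm_of_card_eq {n : ℕ} {α : Type*} [DecidableEq α] (x y : Fin n → α)
    (h : ∀ c, (Finset.univ.filter (fun i => x i = c)).card =
      (Finset.univ.filter (fun i => y i = c)).card) :
    ∃ g : Equiv.Perm (Fin n), ∀ i, y (g i) = x i := by
  have e : ∀ c, Nonempty ({i // x i = c} ≃ {i // y i = c}) := by
    intro c
    refine Fintype.card_eq.1 ?_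
    rw [Fintype.card_subtype, Fintype.card_subtype]
    exact h c
  exact ⟨Equiv.ofFiberEquiv (fun c => Classical.choice (e c)),
    fun i => Equiv.ofFiberEquiv_map _ i⟩

variable {R : Type u} [Field R] [LinearOrder R] [IsStrictOrderedRing R]

/-- the finite sets of the counterexample -/
def W (R : Type u) [Field R] (n : ℕ) : Set (Fin n → R) :=
  {x | (∀ i, x i = 0 ∨ x i = 1 ∨ x i = -1) ∧ (∑ i, x i) ^ 2 = ∑ i, (x i) ^ 2}

theorem W_finite (n : ℕ) : (W R n).Finite := by
  classical
  have : (W R n) ⊆ Set.pi Set.univ (fun _ : Fin n => (({0, 1, -1} : Finset R) : Set R)) := by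
    intro x hx i _
    have := hx.1 i
    simp only [Finset.coe_insert, Finset.coe_singleton, Set.mem_insert_iff, Set.mem_singleton_iff]
    exact this
  exact (Set.Finite.pi (fun _ => Finset.finite_toSet _)).subset this

theorem W_perm {n : ℕ} {x : Fin n → R} (hx : x ∈ W R n) (g : Equiv.Perm (Fin n)) :
    (fun i => x (g i)) ∈ W R n := by
  refine ⟨fun i => hx.1 (g i), ?_⟩
  have h1 : ∑ i, x (g i) = ∑ i, x i := Equiv.sum_comp g x
  have h2 : ∑ i, (x (g i)) ^ 2 = ∑ i, (x i) ^ 2 := Equiv.sum_comp g (fun i => (x i) ^ 2)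
  rw [h1, h2]
  exact hx.2

/-- number of coordinates equal to `c` -/
noncomputable def cnt {n : ℕ} (x : Fin n → R) (c : R) : ℕ :=
  (Finset.univ.filter (fun i => x i = c)).card

theorem sum_eq {n : ℕ} {x : Fin n → R} (hx : ∀ i, x i = 0 ∨ x i = 1 ∨ x i = -1) :
    ∑ i, x i = (cnt x 1 : R) - (cnt x (-1) : R) := by
  have : ∀ i, x i = (if x i = 1 then (1 : R) else 0) - (if x i = -1 then (1 : R) else 0) := by
    intro i
    have h1 : (1 : R) ≠ -1 := by
      intro h
      have : (0 : R) < 1 := one_pos
      linarith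
    rcases hx i with h | h | h
    · simp [h]
    · simp [h, h1]
    · simp [h, h1.symm]
  rw [Finset.sum_congr rfl (fun i _ => this i), Finset.sum_sub_distrib]
  simp [cnt, Finset.sum_ite]

theorem sum_sq_eq {n : ℕ} {x : Fin n → R} (hx : ∀ i, x i = 0 ∨ x i = 1 ∨ x i = -1) :
    ∑ i, (x i) ^ 2 = (cnt x 1 : R) + (cnt x (-1) : R) := by
  have : ∀ i, (x i) ^ 2 = (if x i = 1 then (1 : R) else 0) + (if x i = -1 then (1 : R) else 0) := by
    intro i
    have h1 : (1 : R) ≠ -1 := by
      intro h
      have : (0 : R) < 1 := one_pos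
      linarith
    rcases hx i with h | h | h
    · simp [h]
    · simp [h, h1]
    · simp [h, h1.symm]
  rw [Finset.sum_congr rfl (fun i _ => this i), Finset.sum_add_distrib]
  simp [cnt, Finset.sum_ite]

theorem cnt_add_le {n : ℕ} (x : Fin n → R) : cnt x 1 + cnt x (-1) ≤ n := by
  classical
  have h1 : (1 : R) ≠ -1 := by
    intro h
    have : (0 : R) < 1 := one_pos
    linarith
  unfold cnt
  rw [← Finset.card_union_of_disjoint]
  · exact (Finset.card_le_univ _).trans (by simp)
  · rw [Finset.disjoint_left]
    intro i hi hj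
    simp only [Finset.mem_filter, Finset.mem_univ, true_and] at hi hj
    exact h1 (hi.symm.trans hj)

/-- the complete invariant of the orbits -/
noncomputable def inv {n : ℕ} (x : Fin n → R) : ℤ := (cnt x 1 : ℤ) - (cnt x (-1) : ℤ)

theorem inv_sq {n : ℕ} {x : Fin n → R} (hx : x ∈ W R n) :
    (inv x) ^ 2 = (cnt x 1 : ℤ) + (cnt x (-1) : ℤ) := by
  have h := hx.2
  rw [sum_eq hx.1, sum_sq_eq hx.1] at h
  unfold inv
  exact_mod_cast h

theorem inv_sq_le {n : ℕ} {x : Fin n → R} (hx : x ∈ W R n) : (inv x) ^ 2 ≤ n := by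
  rw [inv_sq hx]
  exact_mod_cast cnt_add_le x

theorem cnt_perm {n : ℕ} (x : Fin n → R) (g : Equiv.Perm (Fin n)) (c : R) :
    cnt (fun i => x (g i)) c = cnt x c := by
  unfold cnt
  refine Finset.card_bij (fun i _ => g i) ?_ ?_ ?_
  · intro i hi
    simpa using hi
  · intro i _ j _ h
    exact g.injective h
  · intro j hj
    refine ⟨g.symm j, ?_, by simp⟩
    simpa using hj

theorem inv_perm {n : ℕ} (x : Fin n → R) (g : Equiv.Perm (Fin n)) :
    inv (fun i => x (g i)) = inv x := by
  unfold inv
  rw [cnt_perm, cnt_perm]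

theorem exists_perm_of_inv_eq {n : ℕ} {x y : Fin n → R} (hx : x ∈ W R n) (hy : y ∈ W R n)
    (h : inv x = inv y) : ∃ g : Equiv.Perm (Fin n), (fun i => y (g i)) = x := by
  classical
  have hx2 := inv_sq hx
  have hy2 := inv_sq hy
  have e1 : cnt x 1 = cnt y 1 := by
    have h' := h
    unfold inv at h'
    rw [h, hy2] at hx2
    omega
  have e2 : cnt x (-1) = cnt y (-1) := by
    have h' := h
    unfold inv at h'
    rw [h, hy2] at hx2
    omega
  have h1 : (1 : R) ≠ -1 := by
    intro h
    have : (0 : R) < 1 := one_pos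
    linarith
  -- the count of zeros
  have e0 : ∀ z : Fin n → R, z ∈ W R n → cnt z 0 + cnt z 1 + cnt z (-1) = n := by
    intro z hz
    unfold cnt
    rw [← Finset.card_union_of_disjoint, ← Finset.card_union_of_disjoint]
    · have : (Finset.univ.filter (fun i => z i = 0) ∪ Finset.univ.filter (fun i => z i = 1)) ∪
        Finset.univ.filter (fun i => z i = -1) = Finset.univ := by
        ext i
        have := hz.1 i
        simp only [Finset.mem_union, Finset.mem_filter, Finset.mem_univ, true_and, iff_true]
        tauto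
      rw [this]
      simp
    · rw [Finset.disjoint_left]
      intro i hi hj
      simp only [Finset.mem_union, Finset.mem_filter, Finset.mem_univ, true_and] at hi hj
      rcases hi with hi | hi
      · rw [hi] at hj
        have : (0 : R) < 1 := one_pos
        linarith
      · exact h1 (hi.symm.trans hj)
    · rw [Finset.disjoint_left]
      intro i hi hj
      simp only [Finset.mem_filter, Finset.mem_univ, true_and] at hi hj
      rw [hi] at hj
      exact zero_ne_one hj
  have e3 : cnt x 0 = cnt y 0 := by
    have a := e0 x hx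
    have b := e0 y hy
    omega
  have key : ∀ c, (Finset.univ.filter (fun i => x i = c)).card =
      (Finset.univ.filter (fun i => y i = c)).card := by
    intro c
    by_cases c0 : c = 0
    · subst c0; exact e3
    by_cases c1 : c = 1
    · subst c1; exact e1
    by_cases c2 : c = -1
    · subst c2; exact e2
    · have : ∀ z : Fin n → R, z ∈ W R n → Finset.univ.filter (fun i => z i = c) = ∅ := by
        intro z hz
        ext i
        simp only [Finset.mem_filter, Finset.mem_univ, true_and, Finset.notMem_empty, iff_false]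
        intro h
        rcases hz.1 i with h' | h' | h'
        · exact c0 (h.symm.trans h')
        · exact c1 (h.symm.trans h')
        · exact c2 (h.symm.trans h')
      rw [this x hx, this y hy]
  obtain ⟨g, hg⟩ := exists_perm_of_card_eq x y key
  exact ⟨g, funext hg⟩

theorem exists_inv_eq {n : ℕ} (s : ℤ) (hs : s ^ 2 ≤ n) : ∃ x ∈ W R n, inv x = s := by
  classical
  -- a = (s^2+s)/2, b = (s^2-s)/2
  obtain ⟨a, ha⟩ : ∃ a : ℕ, (2 * a : ℤ) = s ^ 2 + s := by
    have h0 : 0 ≤ s ^ 2 + s := by nlinarith [sq_nonneg (2 * s + 1)]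
    have h2 : (2 : ℤ) ∣ s ^ 2 + s := by
      have : s ^ 2 + s = s * (s + 1) := by ring
      rw [this]
      exact (Int.even_mul_succ_self s).two_dvd
    obtain ⟨k, hk⟩ := h2
    exact ⟨k.toNat, by omega⟩
  obtain ⟨b, hb⟩ : ∃ b : ℕ, (2 * b : ℤ) = s ^ 2 - s := by
    have h0 : 0 ≤ s ^ 2 - s := by nlinarith [sq_nonneg (2 * s - 1)]
    have h2 : (2 : ℤ) ∣ s ^ 2 - s := by
      have : s ^ 2 - s = (s - 1) * (s - 1 + 1) := by ring
      rw [this]
      exact (Int.even_mul_succ_self (s - 1)).two_dvd
    obtain ⟨k, hk⟩ := h2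
    exact ⟨k.toNat, by omega⟩
  have hab : a + b ≤ n := by
    have : (2 * (a + b) : ℤ) ≤ 2 * n := by linarith
    omega
  have h1 : (1 : R) ≠ -1 := by
    intro h
    have : (0 : R) < 1 := one_pos
    linarith
  have h0 : (0 : R) ≠ -1 := by
    intro h
    have : (0 : R) < 1 := one_pos
    linarith
  let x : Fin n → R := fun i => if (i : ℕ) < a then 1 else if (i : ℕ) < a + b then -1 else 0
  have hx1 : ∀ i, x i = 0 ∨ x i = 1 ∨ x i = -1 := by
    intro i
    by_cases hi : (i : ℕ) < a
    · right; left; simp [x, hi]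
    · by_cases hj : (i : ℕ) < a + b
      · right; right; simp [x, hi, hj]
      · left; simp [x, hi, hj]
  have c1 : cnt x 1 = a := by
    have : Finset.univ.filter (fun i => x i = 1) =
        Finset.univ.filter (fun i : Fin n => (i : ℕ) < a) := by
      ext i
      simp only [Finset.mem_filter, Finset.mem_univ, true_and]
      constructor
      · intro h
        by_contra hi
        by_cases hj : (i : ℕ) < a + b
        · simp only [x, hi, hj, if_true, if_false] at h
          exact h1 h.symm
        · simp only [x, hi, hj, if_false] at h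
          exact zero_ne_one h
      · intro h
        simp [x, h]
    unfold cnt
    rw [this]
    have : Finset.univ.filter (fun i : Fin n => (i : ℕ) < a) =
      (Finset.univ : Finset (Fin a)).map (Fin.castLEEmb (by omega)) := by
      ext i
      simp only [Finset.mem_filter, Finset.mem_univ, true_and, Finset.mem_map]
      constructor
      · intro h
        exact ⟨⟨i, h⟩, by ext; simp⟩
      · rintro ⟨j, rfl⟩
        simp
    rw [this]
    simp
  have c2 : cnt x (-1) = b := by
    have : Finset.univ.filter (fun i => x i = -1) =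
        (Finset.univ : Finset (Fin b)).map
          ⟨fun j : Fin b => (⟨a + (j : ℕ), by have := j.2; omega⟩ : Fin n), by
            intro j k h
            simp only [Fin.mk.injEq] at h
            ext
            omega⟩ := by
      ext i
      simp only [Finset.mem_filter, Finset.mem_univ, true_and, Finset.mem_map,
        Function.Embedding.coeFn_mk]
      constructor
      · intro h
        by_cases hi : (i : ℕ) < a
        · simp only [x, hi, if_true] at h
          exact absurd h h1
        · by_cases hj : (i : ℕ) < a + b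
          · exact ⟨⟨i - a, by omega⟩, by apply Fin.ext; show a + ((i : ℕ) - a) = i; omega⟩
          · simp only [x, hi, hj, if_false] at h
            exact absurd h h0
      · rintro ⟨j, rfl⟩
        have hj := j.2
        have h1' : ¬ (a + (j : ℕ) < a) := by omega
        have h2' : a + (j : ℕ) < a + b := by omega
        show (if a + (j : ℕ) < a then (1 : R) else if a + (j : ℕ) < a + b then -1 else 0) = -1
        rw [if_neg h1', if_pos h2']
    unfold cnt
    rw [this]
    simp
  refine ⟨x, ⟨hx1, ?_⟩, ?_⟩
  · rw [sum_eq hx1, sum_sq_eq hx1, c1, c2]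
    have : ((a : ℤ) - b) ^ 2 = a + b := by
      have e : (a : ℤ) - b = s := by linarith
      rw [e]
      linarith
    exact_mod_cast congrArg (fun z : ℤ => (z : R)) this
  · unfold inv
    rw [c1, c2]
    linarith

theorem card_ints (n : ℕ) : Nat.card {s : ℤ // s ^ 2 ≤ n} = 2 * Nat.sqrt n + 1 := by
  have : ∀ s : ℤ, s ^ 2 ≤ n ↔ s ∈ Finset.Icc (-(Nat.sqrt n : ℤ)) (Nat.sqrt n) := by
    intro s
    rw [Finset.mem_Icc]
    have h : s ^ 2 ≤ n ↔ s.natAbs ≤ Nat.sqrt n := by
      rw [Nat.le_sqrt', ← Int.natAbs_sq s]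
      norm_cast
    rw [h]
    omega
  rw [Nat.card_congr (Equiv.subtypeEquivRight this), Nat.card_eq_fintype_card, Fintype.card_coe,
    Int.card_Icc]
  omega

/-- The space of permutation-invariant functions on `W R n` has dimension `2⌊√n⌋+1`. -/
def invFun (R : Type u) [Field R] (n : ℕ) : Submodule ℚ (W R n → ℚ) where
  carrier := {f | ∀ (g : Equiv.Perm (Fin n)) (x y : W R n),
    (∀ i, (y : Fin n → R) i = (x : Fin n → R) (g i)) → f y = f x}
  zero_mem' := by intro g x y _; rfl
  add_mem' := by
    intro f f' hf hf' g x y h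
    simp [hf g x y h, hf' g x y h]
  smul_mem' := by
    intro c f hf g x y h
    simp [hf g x y h]

theorem finrank_invFun (n : ℕ) : Module.finrank ℚ (invFun R n) = 2 * Nat.sqrt n + 1 := by
  classical
  -- equivalence with functions on the set of admissible invariants
  let Φ : ({s : ℤ // s ^ 2 ≤ n} → ℚ) →ₗ[ℚ] invFun R n :=
    { toFun := fun φ => ⟨fun x => φ ⟨inv (x : Fin n → R), inv_sq_le x.2⟩, by
        intro g x y h
        have : inv (y : Fin n → R) = inv (x : Fin n → R) := by
          rw [← inv_perm (x : Fin n → R) g]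
          congr 1
          exact funext h
        simp only [this]⟩
      map_add' := by intro a b; rfl
      map_smul' := by intro a b; rfl }
  have hΦ : Function.Bijective Φ := by
    constructor
    · intro φ ψ h
      funext s
      obtain ⟨x, hx, hs⟩ := exists_inv_eq (R := R) s.1 s.2
      have h' := congrArg (fun F : invFun R n => (F : W R n → ℚ) ⟨x, hx⟩) h
      simp only [Φ, LinearMap.coe_mk, AddHom.coe_mk] at h'
      have e : (⟨inv x, inv_sq_le hx⟩ : {s : ℤ // s ^ 2 ≤ n}) = s := Subtype.ext hs
      rwa [e] at h'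
    · intro F
      choose! pt hpt hinv using fun (s : ℤ) (hs : s ^ 2 ≤ n) => exists_inv_eq (R := R) s hs
      refine ⟨fun s => (F : W R n → ℚ) ⟨pt s.1, hpt s.1 s.2⟩, ?_⟩
      apply Subtype.ext
      funext x
      simp only [Φ, LinearMap.coe_mk, AddHom.coe_mk]
      obtain ⟨g, hg⟩ := exists_perm_of_inv_eq (hpt _ (inv_sq_le x.2)) x.2
        (hinv _ (inv_sq_le x.2))
      exact F.2 g x ⟨pt (inv (x : Fin n → R)), hpt _ (inv_sq_le x.2)⟩
        (fun i => (congrFun hg i).symm)
  have e := LinearEquiv.ofBijective Φ hΦ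
  rw [← e.finrank_eq]
  haveI : Fintype {s : ℤ // s ^ 2 ≤ n} := by
    have h : Nat.card {s : ℤ // s ^ 2 ≤ n} ≠ 0 := by
      rw [card_ints]; omega
    exact @Fintype.ofFinite _ (Nat.finite_of_card_ne_zero h)
  rw [Module.finrank_fintype_fun_eq_card, ← Nat.card_eq_fintype_card, card_ints]

/-- `2⌊√n⌋+1` is not eventually a quasi-polynomial -/
theorem not_quasi (q : ℕ) (hq : 1 ≤ q) (P : ℕ → Polynomial ℚ) (N : ℕ) :
    ∃ n, N ≤ n ∧ ((2 * Nat.sqrt n + 1 : ℕ) : ℚ) ≠ (P (n % q)).eval (n : ℚ) := by
  by_contra hcon
  push Not at hcon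
  -- on the interval [m^2, m^2+2m], P 0 takes the value 2m+1 at the multiples of q
  have key : ∀ m : ℕ, N ≤ m → q * ((P 0).natDegree + 3) ≤ m → P 0 = Polynomial.C (2 * m + 1 : ℚ) := by
    intro m hm hm2
    by_contra hne
    have hne' : P 0 - Polynomial.C (2 * m + 1 : ℚ) ≠ 0 := sub_ne_zero.2 hne
    -- the roots
    let S : Finset ℚ := (Finset.range ((P 0).natDegree + 1)).image
      (fun j => ((q * ((m ^ 2) / q + 1 + j) : ℕ) : ℚ))
    have hS : S ⊆ (P 0 - Polynomial.C (2 * m + 1 : ℚ)).roots.toFinset := by
      intro z hz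
      simp only [S, Finset.mem_image, Finset.mem_range] at hz
      obtain ⟨j, hj, rfl⟩ := hz
      rw [Multiset.mem_toFinset, Polynomial.mem_roots hne', Polynomial.IsRoot.def,
        Polynomial.eval_sub, Polynomial.eval_C]
      set k := q * ((m ^ 2) / q + 1 + j) with hk
      have hdiv : q * (m ^ 2 / q) ≤ m ^ 2 := Nat.mul_div_le _ _
      have hdiv2 : m ^ 2 < q * (m ^ 2 / q) + q := by
        have := Nat.div_add_mod (m ^ 2) q
        have := Nat.mod_lt (m ^ 2) (by omega : q > 0)
        omega
      have hk1 : m ^ 2 < k := by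
        rw [hk]
        have : q * (m ^ 2 / q + 1 + j) = q * (m ^ 2 / q) + q + q * j := by ring
        rw [this]
        have : 0 ≤ q * j := Nat.zero_le _
        omega
      have hk2 : k < (m + 1) ^ 2 := by
        rw [hk]
        have e : q * (m ^ 2 / q + 1 + j) = q * (m ^ 2 / q) + q * (j + 1) := by ring
        rw [e]
        have : q * (j + 1) ≤ q * ((P 0).natDegree + 3) := Nat.mul_le_mul_left _ (by omega)
        nlinarith
      have hsq : Nat.sqrt k = m := by
        exact (Nat.eq_sqrt'.2 ⟨hk1.le, hk2⟩).symm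
      have hmod : k % q = 0 := by rw [hk]; exact Nat.mul_mod_right _ _
      have hNk : N ≤ k := by nlinarith
      have := hcon k hNk
      rw [hmod, hsq] at this
      rw [← this]
      push_cast
      ring
    have hcard : S.card = (P 0).natDegree + 1 := by
      rw [Finset.card_image_of_injective, Finset.card_range]
      intro a b hab
      simp only at hab
      have h' : q * ((m ^ 2) / q + 1 + a) = q * ((m ^ 2) / q + 1 + b) := by exact_mod_cast hab
      have := Nat.eq_of_mul_eq_mul_left (by omega : 0 < q) h'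
      omega
    have h1 := Finset.card_le_card hS
    have h2 := (P 0 - Polynomial.C (2 * m + 1 : ℚ)).roots.toFinset_card_le
    have h3 := (P 0 - Polynomial.C (2 * m + 1 : ℚ)).card_roots'
    have h4 : (P 0 - Polynomial.C (2 * m + 1 : ℚ)).natDegree ≤ (P 0).natDegree := by
      rw [Polynomial.natDegree_sub_C]
    omega
  have a := key (N + q * ((P 0).natDegree + 3)) (by omega) (by omega)
  have b := key (N + q * ((P 0).natDegree + 3) + 1) (by omega) (by omega)
  have := Polynomial.C_injective (a.symm.trans b)
  push_cast at this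
  linarith

end Pool.Agent.Work.MP_356e41_ag
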