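import Mathlib

set_option autoImplicit false

open CategoryTheory AlgebraicTopology Limits Simplicial

noncomputable section

namespace Pool.Agent.Work.MP_356e41_ag

universe w v u

section gen
variable {C : Type u} [Category.{v} C] [HasCoproducts.{w} C] [Preadditive C]
  [CategoryWithHomology C]

/-- class of a vertex in degree zero homology -/
def cls {X : SSet.{w}} (R : C) (x : X _⦋0⦌) : R ⟶ X.homology R 0 :=
  (X.chainComplex R).liftCycles (k := X.ιChainComplex x) 0 (by simp) (by simp) ≫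
      (X.chainComplex R).homologyπ 0

theorem cls_map {X Y : SSet.{w}} (R : C) (f : X ⟶ Y) (x : X _⦋0⦌) :
    cls R x ≫ SSet.homologyMap f R 0 = cls R (f.app _ x) := by
  unfold cls SSet.homologyMap
  rw [Category.assoc, HomologicalComplex.homologyπ_naturality,
    HomologicalComplex.liftCycles_comp_cyclesMap_assoc]
  simp only [SSet.ι_chainComplexMap_f]

theorem cls_iso {X : SSet.{w}} (R : C) (x : X _⦋0⦌) :
    cls R x ≫ (X.homology₀Iso R).hom = Sigma.ι (fun (_ : X.π₀) ↦ R) (.mk x) := by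
  unfold cls
  rw [Category.assoc]
  exact SSet.liftCycles_ιChainComplex_homologyπ_homology₀Iso_hom X R x

theorem hom_ext' {X : SSet.{w}} {R T : C} {f g : X.homology R 0 ⟶ T}
    (h : ∀ x : X _⦋0⦌, cls R x ≫ f = cls R x ≫ g) : f = g := by
  rw [← cancel_epi (X.homology₀Iso R).inv]
  apply Sigma.hom_ext
  intro c
  obtain ⟨y, rfl⟩ := c.mk_surjective
  rw [← cls_iso, Category.assoc, Category.assoc, Iso.hom_inv_id_assoc, Iso.hom_inv_id_assoc]
  exact h y

theorem exists_hom {X : SSet.{w}} {R T : C} (φ : X.π₀ → (R ⟶ T)) :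
    ∃ F : X.homology R 0 ⟶ T, ∀ x : X _⦋0⦌, cls R x ≫ F = φ (.mk x) := by
  refine ⟨(X.homology₀Iso R).hom ≫ Sigma.desc φ, fun x => ?_⟩
  rw [← Category.assoc, cls_iso, Sigma.ι_desc]

end gen

/-- singular homology with rational coefficients -/
abbrev Hsing (p : ℕ) (X : Type) [TopologicalSpace X] : ModuleCat.{0} ℚ :=
  ((singularHomologyFunctor (ModuleCat.{0} ℚ) p).obj (ModuleCat.of ℚ ℚ)).obj (TopCat.of X)

/-- induced map on singular homology -/
abbrev HsingMap (p : ℕ) {X Y : Type} [TopologicalSpace X] [TopologicalSpace Y] (f : C(X, Y)) :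
    Hsing p X →ₗ[ℚ] Hsing p Y :=
  (((singularHomologyFunctor (ModuleCat.{0} ℚ) p).obj (ModuleCat.of ℚ ℚ)).map (TopCat.ofHom f)).hom

variable {X Y : Type} [TopologicalSpace X] [TopologicalSpace Y]

/-- the vertex of the singular simplicial set -/
def vtx (x : X) : (TopCat.toSSet.obj (TopCat.of X)) _⦋0⦌ := TopCat.toSSetObj₀Equiv.symm x

/-- the class of a point, as a morphism -/
def ptHom (x : X) : ModuleCat.of ℚ ℚ ⟶ Hsing 0 X :=
  cls (X := TopCat.toSSet.obj (TopCat.of X)) (ModuleCat.of ℚ ℚ) (vtx x)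

/-- the class of a point -/
def ptCls (x : X) : Hsing 0 X := (ptHom x).hom (1 : ℚ)

theorem vtx_map (f : C(X, Y)) (x : X) :
    (TopCat.toSSet.map (TopCat.ofHom f)).app _ (vtx x) = vtx (f x) := by
  rfl

theorem ptCls_map (f : C(X, Y)) (x : X) : HsingMap 0 f (ptCls x) = ptCls (f x) := by
  have h := cls_map (ModuleCat.of ℚ ℚ) (TopCat.toSSet.map (TopCat.ofHom f)) (vtx x)
  rw [vtx_map] at h
  exact congrArg (fun (F : ModuleCat.of ℚ ℚ ⟶ Hsing 0 Y) => F.hom (1 : ℚ)) h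

theorem dual_ext {ξ η : Module.Dual ℚ (Hsing 0 X)} (h : ∀ x : X, ξ (ptCls x) = η (ptCls x)) :
    ξ = η := by
  have key : (ModuleCat.ofHom ξ : Hsing 0 X ⟶ ModuleCat.of ℚ ℚ) = ModuleCat.ofHom η := by
    refine hom_ext' (X := TopCat.toSSet.obj (TopCat.of X)) (R := ModuleCat.of ℚ ℚ) ?_
    intro y
    apply ModuleCat.hom_ext
    apply LinearMap.ext_ring
    obtain ⟨x, rfl⟩ := TopCat.toSSetObj₀Equiv.symm.surjective y
    exact h x
  exact congrArg (fun (F : Hsing 0 X ⟶ ModuleCat.of ℚ ℚ) => F.hom) key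

theorem dual_exists [TotallyDisconnectedSpace X] (φ : X → ℚ) :
    ∃ ξ : Module.Dual ℚ (Hsing 0 X), ∀ x, ξ (ptCls x) = φ x := by
  let φ' : (TopCat.toSSet.obj (TopCat.of X)).π₀ → ℚ :=
    SSet.π₀.lift (fun y => φ (TopCat.toSSetObj₀Equiv y)) (by
      intro y₀ y₁ e
      obtain ⟨x₀, rfl⟩ := TopCat.toSSetObj₀Equiv.symm.surjective y₀
      obtain ⟨x₁, rfl⟩ := TopCat.toSSetObj₀Equiv.symm.surjective y₁
      rw [Equiv.apply_symm_apply, Equiv.apply_symm_apply]
      congr 1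
      have p : Path (x₀ : X) x₁ := TopCat.pathEquiv (TopCat.toSSetObjEdgeEquiv e)
      have hp : IsPreconnected (Set.range p) := isPreconnected_range p.continuous
      have := hp.subsingleton
      exact this ⟨0, p.source⟩ ⟨1, p.target⟩)
  obtain ⟨F, hF⟩ := exists_hom (X := TopCat.toSSet.obj (TopCat.of X)) (R := ModuleCat.of ℚ ℚ)
    (T := ModuleCat.of ℚ ℚ) (fun c => ModuleCat.ofHom (LinearMap.lsmul ℚ ℚ (φ' c)))
  refine ⟨F.hom, fun x => ?_⟩
  have h3 := congrArg (fun (F : ModuleCat.of ℚ ℚ ⟶ ModuleCat.of ℚ ℚ) => F.hom (1 : ℚ)) (hF (vtx x))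
  refine h3.trans ?_
  show φ' (.mk (vtx x)) * 1 = φ x
  rw [mul_one]
  exact congrArg φ ((TopCat.toSSetObj₀Equiv (X := TopCat.of X)).apply_symm_apply x)

end Pool.Agent.Work.MP_356e41_ag
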