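import Mathlib
import Pool.Agent.Work.MP_356e41_ag.Comb
import Pool.Agent.Work.MP_356e41_ag.Sing
import Pool.Agent.Work.MP_356e41_ag.Defs

set_option autoImplicit false

open MvPolynomial CategoryTheory

namespace Pool.Agent.Work.MP_356e41_ag

universe u

section Proofs


/-! ### One-row tableaux -/

theorem youngSym_row {n : ℕ} {μ : YoungDiagram} (t : Fin n ≃ μ.cells) (hμ : IsPadded ⊥ μ) :
    youngSym t = ∑ p : Equiv.Perm (Fin n), MonoidAlgebra.single p (1 : ℚ) := by
  have hrow : ∀ i, (t i).1.1 = 0 := by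
    intro i
    by_contra h
    obtain ⟨k, hk⟩ := Nat.exists_eq_succ_of_ne_zero h
    have h1 : (t i).1 ∈ μ := (t i).2
    have h2 : (k + 1, (t i).1.2) ∈ μ := by
      have : (t i).1 = (k + 1, (t i).1.2) := Prod.ext hk rfl
      rwa [← this]
    have h3 := (hμ k (t i).1.2).1 h2
    exact absurd h3 (YoungDiagram.notMem_bot _)
  unfold youngSym
  have hq : ∀ q : {q : Equiv.Perm (Fin n) // ∀ i, (t (q i)).1.2 = (t i).1.2}, q.1 = 1 := by
    intro q
    ext i
    have h1 : t (q.1 i) = t i := by
      apply Subtype.ext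
      apply Prod.ext
      · rw [hrow, hrow]
      · exact q.2 i
    have := t.injective h1
    simp [this]
  have hp : ∀ p : Equiv.Perm (Fin n), ∀ i, (t (p i)).1.1 = (t i).1.1 := by
    intro p i
    rw [hrow, hrow]
  let q0 : {q : Equiv.Perm (Fin n) // ∀ i, (t (q i)).1.2 = (t i).1.2} := ⟨1, fun i => rfl⟩
  rw [Fintype.sum_eq_single q0 (fun q hne => absurd (Subtype.ext (hq q)) hne)]
  simp only [q0, one_mul, Equiv.Perm.sign_one, Units.val_one, Int.cast_one]
  exact Fintype.sum_equiv (Equiv.subtypeUnivEquiv hp) _ _ (fun _ => rfl)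

/-- norm element -/
noncomputable def nrm (n : ℕ) : MonoidAlgebra ℚ (Equiv.Perm (Fin n)) :=
  ∑ p : Equiv.Perm (Fin n), MonoidAlgebra.single p (1 : ℚ)

theorem single_mul_nrm {n : ℕ} (g : Equiv.Perm (Fin n)) :
    MonoidAlgebra.single g (1 : ℚ) * nrm n = nrm n := by
  unfold nrm
  rw [Finset.mul_sum]
  simp only [MonoidAlgebra.single_mul_single, mul_one]
  exact Fintype.sum_equiv (Equiv.mulLeft g) _ _ (fun _ => rfl)

/-- augmentation -/
noncomputable def aug (n : ℕ) : MonoidAlgebra ℚ (Equiv.Perm (Fin n)) →ₐ[ℚ] ℚ :=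
  MonoidAlgebra.lift ℚ ℚ (Equiv.Perm (Fin n)) 1

theorem mul_nrm {n : ℕ} (a : MonoidAlgebra ℚ (Equiv.Perm (Fin n))) :
    a * nrm n = aug n a • nrm n := by
  induction a using MonoidAlgebra.induction_on with
  | of g =>
    rw [MonoidAlgebra.of_apply, single_mul_nrm]
    simp [aug]
  | add a b ha hb => rw [add_mul, ha, hb, map_add, add_smul]
  | smul r a ha => rw [smul_mul_assoc, ha, map_smul, smul_assoc]

theorem aug_nrm_ne_zero (n : ℕ) : aug n (nrm n) ≠ 0 := by
  unfold nrm aug
  rw [map_sum]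
  simp only [MonoidAlgebra.lift_single]
  simp

theorem smul_of_invariant {n : ℕ} {M : Type*} [AddCommGroup M] [Module ℚ M]
    (ρ : Representation ℚ (Equiv.Perm (Fin n)) M) (m : M) (hm : m ∈ ρ.invariants)
    (a : MonoidAlgebra ℚ (Equiv.Perm (Fin n))) :
    a • ρ.asModuleEquiv.symm m = aug n a • ρ.asModuleEquiv.symm m := by
  induction a using MonoidAlgebra.induction_on with
  | of g =>
    rw [← Representation.asModuleEquiv_symm_map_rho, hm g]
    simp [aug]
  | add a b ha hb => rw [add_smul, ha, hb, map_add, add_smul]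
  | smul r a ha => rw [smul_assoc, ha, map_smul, smul_assoc]

theorem finrank_hom_nrm {n : ℕ} {M : Type*} [AddCommGroup M] [Module ℚ M]
    (ρ : Representation ℚ (Equiv.Perm (Fin n)) M) :
    Module.finrank ℚ ((Submodule.span (MonoidAlgebra ℚ (Equiv.Perm (Fin n))) {nrm n})
      →ₗ[MonoidAlgebra ℚ (Equiv.Perm (Fin n))] ρ.asModule) =
    Module.finrank ℚ ρ.invariants := by
  have hmem : nrm n ∈ Submodule.span (MonoidAlgebra ℚ (Equiv.Perm (Fin n))) {nrm n} :=
    Submodule.mem_span_singleton_self _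
  let Ψ : ((Submodule.span (MonoidAlgebra ℚ (Equiv.Perm (Fin n))) {nrm n})
      →ₗ[MonoidAlgebra ℚ (Equiv.Perm (Fin n))] ρ.asModule) →ₗ[ℚ] ρ.invariants :=
    { toFun := fun φ => ⟨ρ.asModuleEquiv (φ ⟨nrm n, hmem⟩), by
        intro g
        have h1 : (MonoidAlgebra.single g (1 : ℚ)) • φ ⟨nrm n, hmem⟩ = φ ⟨nrm n, hmem⟩ := by
          rw [← map_smul]
          congr 1
          exact Subtype.ext (single_mul_nrm g)
        have h2 := congrArg ρ.asModuleEquiv h1
        rw [Representation.asModuleEquiv_map_smul, Representation.asAlgebraHom_single_one] at h2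
        exact h2⟩
      map_add' := by
        intro φ ψ
        apply Subtype.ext
        simp
      map_smul' := by
        intro r φ
        apply Subtype.ext
        simp }
  have hΨ : Function.Bijective Ψ := by
    constructor
    · intro φ ψ h
      have h1 : φ ⟨nrm n, hmem⟩ = ψ ⟨nrm n, hmem⟩ :=
        ρ.asModuleEquiv.injective (congrArg Subtype.val h)
      apply LinearMap.ext
      rintro ⟨s, hs⟩
      obtain ⟨a, rfl⟩ := Submodule.mem_span_singleton.1 hs
      have e : (⟨a • nrm n, hs⟩ : Submodule.span (MonoidAlgebra ℚ (Equiv.Perm (Fin n))) {nrm n}) =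
          a • ⟨nrm n, hmem⟩ := rfl
      rw [e, map_smul, map_smul, h1]
    · rintro ⟨m, hm⟩
      let φ : (Submodule.span (MonoidAlgebra ℚ (Equiv.Perm (Fin n))) {nrm n})
          →ₗ[MonoidAlgebra ℚ (Equiv.Perm (Fin n))] ρ.asModule :=
        { toFun := fun s => (aug n s.1 / aug n (nrm n)) • ρ.asModuleEquiv.symm m
          map_add' := by
            intro s s'
            rw [← add_smul, Submodule.coe_add, map_add, add_div]
          map_smul' := by
            intro a s
            rw [RingHom.id_apply, Submodule.coe_smul, smul_eq_mul, map_mul,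
              smul_comm a, smul_of_invariant ρ m hm, smul_smul]
            congr 1
            ring }
      refine ⟨φ, ?_⟩
      apply Subtype.ext
      show ρ.asModuleEquiv ((aug n (nrm n) / aug n (nrm n)) • ρ.asModuleEquiv.symm m) = m
      rw [div_self (aug_nrm_ne_zero n), one_smul, LinearEquiv.apply_symm_apply]
  exact (LinearEquiv.ofBijective Ψ hΨ).finrank_eq

/-- The multiplicity of the trivial Specht module is the dimension of the invariants. -/
theorem mult_row {n : ℕ} {μ : YoungDiagram} (t : Fin n ≃ μ.cells) (hμ : IsPadded ⊥ μ)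
    {M : Type u} [AddCommGroup M] [Module ℚ M]
    (ρ : Representation ℚ (Equiv.Perm (Fin n)) M) :
    mult t ρ = Module.finrank ℚ ρ.invariants := by
  unfold mult specht
  rw [youngSym_row t hμ]
  exact finrank_hom_nrm ρ

/-! ### The symmetric function -/

/-- power sums as elements of `Λ` -/
noncomputable def pS (R : Type u) [Field R] (k : ℕ) (hk : k ≠ 0) : Lam R :=
  ⟨fun n => psum (Fin n) R k, by
    refine ⟨fun n => psum_isSymmetric _ _ k, fun n m => ?_, k, fun n => ?_⟩
    · simp only [psum, setZero, Fin.sum_univ_add]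
      simp [hk]
    · refine (totalDegree_finsetSum _ _).trans ?_
      refine Finset.sup_le fun i _ => ?_
      refine (totalDegree_pow _ _).trans ?_
      simp⟩

/-- the element `p_6 - 2 p_4 + p_2 + (p_1^2 - p_2)^2` of `Λ` -/
noncomputable def theF (R : Type u) [Field R] : Lam R :=
  pS R 6 (by norm_num) - 2 * pS R 4 (by norm_num) + pS R 2 (by norm_num) +
    (pS R 1 (by norm_num) ^ 2 - pS R 2 (by norm_num)) ^ 2

theorem eval_theF (R : Type u) [Field R] (n : ℕ) (x : Fin n → R) :
    eval x (phi n (theF R)) =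
      ∑ i, (x i * (x i ^ 2 - 1)) ^ 2 + ((∑ i, x i) ^ 2 - ∑ i, (x i) ^ 2) ^ 2 := by
  have h : phi n (theF R) =
      psum (Fin n) R 6 - 2 * psum (Fin n) R 4 + psum (Fin n) R 2 +
        (psum (Fin n) R 1 ^ 2 - psum (Fin n) R 2) ^ 2 := rfl
  rw [h]
  simp only [psum, map_add, map_sub, map_mul, map_sum, map_pow, eval_X, map_ofNat, pow_one]
  congr 1
  rw [Finset.mul_sum, ← Finset.sum_sub_distrib, ← Finset.sum_add_distrib]
  refine Finset.sum_congr rfl fun i _ => ?_
  ring

theorem V_eq (R : Type u) [Field R] [LinearOrder R] [IsStrictOrderedRing R] (n : ℕ) :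
    V (Ideal.span {theF R}) n = W R n := by
  have h1 : ∀ x : Fin n → R, x ∈ V (Ideal.span {theF R}) n ↔
      eval x (phi n (theF R)) = 0 := by
    intro x
    constructor
    · intro h
      exact h _ (Ideal.subset_span rfl)
    · intro h g hg
      obtain ⟨a, rfl⟩ := Ideal.mem_span_singleton'.1 hg
      have : phi n (a * theF R : Lam R) = phi n a * phi n (theF R) := rfl
      rw [this, map_mul, h, mul_zero]
  ext x
  rw [h1, eval_theF]
  constructor
  · intro h
    have a1 : 0 ≤ ∑ i, (x i * (x i ^ 2 - 1)) ^ 2 := Finset.sum_nonneg fun i _ => sq_nonneg _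
    have a2 : 0 ≤ ((∑ i, x i) ^ 2 - ∑ i, (x i) ^ 2) ^ 2 := sq_nonneg _
    have b1 : ∑ i, (x i * (x i ^ 2 - 1)) ^ 2 = 0 := by linarith
    have b2 : ((∑ i, x i) ^ 2 - ∑ i, (x i) ^ 2) ^ 2 = 0 := by linarith
    refine ⟨fun i => ?_, ?_⟩
    · have := (Finset.sum_eq_zero_iff_of_nonneg (fun i _ => sq_nonneg _)).1 b1 i
        (Finset.mem_univ i)
      have := pow_eq_zero_iff (two_ne_zero) |>.1 this
      rcases mul_eq_zero.1 this with h | h
      · exact Or.inl h
      · right
        have : (x i - 1) * (x i + 1) = 0 := by linear_combination h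
        rcases mul_eq_zero.1 this with h | h
        · left; linear_combination h
        · right; linear_combination h
    · have := pow_eq_zero_iff (two_ne_zero) |>.1 b2
      linear_combination this
  · rintro ⟨h1, h2⟩
    have b1 : ∑ i, (x i * (x i ^ 2 - 1)) ^ 2 = 0 := by
      refine Finset.sum_eq_zero fun i _ => ?_
      rcases h1 i with h | h | h <;> rw [h] <;> ring
    rw [b1, h2]
    ring

/-- finite sets are semi-algebraic -/
theorem SemiAlg.of_finite {R : Type u} [Field R] [LinearOrder R] [IsStrictOrderedRing R] {n : ℕ}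
    (s : Set (Fin n → R)) (hs : s.Finite) : SemiAlg s := by
  have h1 : ∀ a : Fin n → R, SemiAlg ({a} : Set (Fin n → R)) := by
    intro a
    have h := (SemiAlg.basic (∑ i, (X i - C (a i)) ^ 2 : MvPolynomial (Fin n) R)).compl
    have e : {x : Fin n → R | 0 < eval x (∑ i, (X i - C (a i)) ^ 2 : MvPolynomial (Fin n) R)}ᶜ =
        {a} := by
      ext x
      simp only [Set.mem_compl_iff, Set.mem_ofPred_eq, map_sum, map_pow, map_sub, eval_X, eval_C,
        not_lt, Set.mem_singleton_iff]
      constructor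
      · intro h
        have a1 : 0 ≤ ∑ i, (x i - a i) ^ 2 := Finset.sum_nonneg fun i _ => sq_nonneg _
        have b1 : ∑ i, (x i - a i) ^ 2 = 0 := le_antisymm h a1
        funext i
        have := (Finset.sum_eq_zero_iff_of_nonneg (fun i _ => sq_nonneg _)).1 b1 i
          (Finset.mem_univ i)
        have := pow_eq_zero_iff (two_ne_zero) |>.1 this
        linear_combination this
      · rintro rfl
        simp
    rwa [e] at h
  have h2 := SemiAlg.biUnion (R := R) hs.toFinset (fun a => ({a} : Set (Fin n → R)))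
    (fun a _ => h1 a)
  have e : (⋃ i ∈ hs.toFinset, ({i} : Set (Fin n → R))) = s := by
    ext x
    simp
  rwa [e] at h2

/-- On a finite set all functions are in `H0`. -/
theorem mem_H0_of_finite {R : Type u} [Field R] [LinearOrder R] [IsStrictOrderedRing R]
    [TopologicalSpace R] [OrderTopology R] {n : ℕ} (S : Set (Fin n → R)) (hS : S.Finite)
    (f : S → ℚ) : IsH0 S f := by
  have : Finite S := hS
  have : DiscreteTopology S := inferInstance
  refine ⟨Set.finite_range f, IsLocallyConstant.of_discrete f, fun q => ?_⟩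
  refine ⟨{x | ∃ h : x ∈ S, f ⟨x, h⟩ = q}, SemiAlg.of_finite _ (hS.subset ?_), fun x => ?_⟩
  · rintro x ⟨h, _⟩
    exact h
  · constructor
    · intro h
      exact ⟨x.2, h⟩
    · rintro ⟨_, h⟩
      exact h

/-- dimension of the invariants from a model by functions -/
theorem finrank_invariants {R : Type u} [Field R] [LinearOrder R] [IsStrictOrderedRing R] {n : ℕ}
    {M : Type*} [AddCommGroup M] [Module ℚ M]
    (ρ : Representation ℚ (Equiv.Perm (Fin n)) M)
    (Φ : M →ₗ[ℚ] (V (Ideal.span {theF R}) n → ℚ)) (hΦ : Function.Bijective Φ)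
    (hρ : ∀ g m x, Φ (ρ g m) x = Φ m (permV _ g x)) :
    Module.finrank ℚ ρ.invariants = 2 * Nat.sqrt n + 1 := by
  rw [← finrank_invFun (R := R) n]
  have hWV : ∀ x ∈ W R n, x ∈ V (Ideal.span {theF R}) n := by
    rw [V_eq]
    exact fun _ h => h
  have hVW : ∀ x ∈ V (Ideal.span {theF R}) n, x ∈ W R n := by
    rw [V_eq]
    exact fun _ h => h
  let Θ : ρ.invariants →ₗ[ℚ] invFun R n :=
    { toFun := fun m => ⟨fun x => Φ m.1 ⟨x.1, hWV _ x.2⟩, by
        intro g x y h
        have h1 := hρ g m.1 ⟨x.1, hWV _ x.2⟩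
        rw [m.2 g] at h1
        have h2 : (⟨y.1, hWV _ y.2⟩ : V (Ideal.span {theF R}) n) =
            permV _ g ⟨x.1, hWV _ x.2⟩ := by
          apply Subtype.ext
          funext i
          exact h i
        show Φ m.1 ⟨y.1, _⟩ = Φ m.1 ⟨x.1, _⟩
        rw [h2]
        exact h1.symm⟩
      map_add' := by
        intro a b
        apply Subtype.ext
        funext x
        simp
      map_smul' := by
        intro a b
        apply Subtype.ext
        funext x
        simp }
  have hΘ : Function.Bijective Θ := by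
    constructor
    · intro a b h
      apply Subtype.ext
      apply hΦ.1
      funext x
      have := congrFun (congrArg Subtype.val h) ⟨x.1, hVW _ x.2⟩
      exact this
    · intro F
      obtain ⟨m, hm⟩ := hΦ.2 (fun x => F.1 ⟨x.1, hVW _ x.2⟩)
      refine ⟨⟨m, ?_⟩, ?_⟩
      · intro g
        apply hΦ.1
        funext x
        rw [hρ, hm]
        exact F.2 g ⟨x.1, hVW _ x.2⟩ ⟨(permV _ g x).1, hVW _ (permV _ g x).2⟩ (fun i => rfl)
      · apply Subtype.ext
        funext x
        show Φ m ⟨x.1, _⟩ = _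
        rw [hm]
  exact (LinearEquiv.ofBijective Θ hΘ).finrank_eq

/-- the one-row diagram with `n` cells -/
def rowDiag (n : ℕ) : YoungDiagram where
  cells := ({0} : Finset ℕ) ×ˢ Finset.range n
  isLowerSet := by
    rintro ⟨a, b⟩ ⟨c, d⟩ h h1
    simp only [Finset.coe_product, Finset.coe_singleton, Finset.coe_range, Set.mem_prod,
      Set.mem_singleton_iff, Set.mem_Iio] at h1 ⊢
    obtain ⟨h2, h3⟩ := h1
    obtain ⟨h4, h5⟩ := h
    simp only at h4 h5
    omega

theorem rowDiag_padded (n : ℕ) : IsPadded ⊥ (rowDiag n) := by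
  intro i j
  constructor
  · intro h
    have h' : (i + 1, j) ∈ (({0} : Finset ℕ) ×ˢ Finset.range n) := h
    simp at h'
  · intro h
    exact absurd h (YoungDiagram.notMem_bot _)

/-- the standard tableau of the one-row diagram -/
def rowTab (n : ℕ) : Fin n ≃ (rowDiag n).cells where
  toFun i := ⟨(0, i), by
    show (0, (i : ℕ)) ∈ (({0} : Finset ℕ) ×ˢ Finset.range n)
    simp⟩
  invFun c := ⟨c.1.2, by
    have h : c.1 ∈ (({0} : Finset ℕ) ×ˢ Finset.range n) := c.2
    rw [Finset.mem_product, Finset.mem_range] at h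
    exact h.2⟩
  left_inv i := rfl
  right_inv c := by
    have h : c.1 ∈ (({0} : Finset ℕ) ×ˢ Finset.range n) := c.2
    rw [Finset.mem_product, Finset.mem_singleton] at h
    apply Subtype.ext
    apply Prod.ext
    · exact h.1.symm
    · rfl

theorem mult_rep0 (R : Type u) [Field R] [LinearOrder R] [IsStrictOrderedRing R]
    [TopologicalSpace R] [OrderTopology R] (n : ℕ) (μ : YoungDiagram) (t : Fin n ≃ μ.cells)
    (hμ : IsPadded ⊥ μ) :
    mult t (rep0 (Ideal.span {theF R}) n) = 2 * Nat.sqrt n + 1 := by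
  rw [mult_row t hμ]
  have hfin : (V (Ideal.span {theF R}) n).Finite := by
    rw [V_eq]
    exact W_finite n
  refine finrank_invariants (R := R) _ (H0Sub (V (Ideal.span {theF R}) n)).subtype
    ⟨Subtype.val_injective, fun f => ⟨⟨f, mem_H0_of_finite _ hfin f⟩, rfl⟩⟩ ?_
  intro g m x
  rfl

theorem mult_repSing (n : ℕ) (μ : YoungDiagram) (t : Fin n ≃ μ.cells)
    (hμ : IsPadded ⊥ μ) :
    mult t (repSing (Ideal.span {theF ℝ}) n 0) = 2 * Nat.sqrt n + 1 := by
  rw [mult_row t hμ]
  have hfin : (V (Ideal.span {theF ℝ}) n).Finite := by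
    rw [V_eq]
    exact W_finite n
  have : Finite (V (Ideal.span {theF ℝ}) n) := hfin
  have : TotallyDisconnectedSpace (V (Ideal.span {theF ℝ}) n) := inferInstance
  let Φ : Hup 0 (VTop (Ideal.span {theF ℝ}) n) →ₗ[ℚ]
      (V (Ideal.span {theF ℝ}) n → ℚ) :=
    { toFun := fun ξ x => DFunLike.coe (F := Module.Dual ℚ (Hsing 0 (V (Ideal.span {theF ℝ}) n)))
        ξ (ptCls x)
      map_add' := fun _ _ => rfl
      map_smul' := fun _ _ => rfl }
  refine finrank_invariants (R := ℝ) _ Φ ⟨?_, ?_⟩ ?_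
  · intro ξ η h
    exact dual_ext fun x => congrFun h x
  · intro φ
    obtain ⟨ξ, hξ⟩ := dual_exists (X := V (Ideal.span {theF ℝ}) n) φ
    exact ⟨ξ, funext hξ⟩
  · intro g ξ x
    show DFunLike.coe (F := Module.Dual ℚ (Hsing 0 (V (Ideal.span {theF ℝ}) n))) ξ
      (HsingMap 0 ⟨permV (Ideal.span {theF ℝ}) g, continuous_permV _ g⟩ (ptCls x)) = _
    rw [ptCls_map]
    rfl

end Proofs

end Pool.Agent.Work.MP_356e41_ag
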